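import Mathlib
import Pool.Agent.Helper42.DB.Goals2

set_option autoImplicit false

namespace Pool.Agent.Helper42.DB.PkEXT

open Set Filter Topology

variable {S : Sys}

/-- The linear family between two states. -/
noncomputable def linF (x0 x1 : St S) (l : ℝ) : St S :=
  ⟨x0.i, x0.u + l * (x1.u - x0.u), x0.φ + l * (x1.φ - x0.φ)⟩

lemma linF_rev (x0 x1 : St S) (l : ℝ) : (linF x0 x1 l).rev = linF x0.rev x1.rev l := by
  ext
  · rfl
  · simp [linF]
  · simp [linF]; ring

lemma linF_zero (x0 x1 : St S) : linF x0 x1 0 = x0 := by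
  ext
  · rfl
  · simp [linF]
  · simp [linF]

lemma linF_one (x0 x1 : St S) (h : x0.i = x1.i) : linF x0 x1 1 = x1 := by
  ext
  · exact h
  · simp [linF]
  · simp [linF]

lemma linF_th (x0 x1 : St S) (l : ℝ) : (linF x0 x1 l).th = x0.th + l * (x1.th - x0.th) := by
  simp only [linF, St.th]; ring

lemma linF_bk (x0 x1 : St S) (l : ℝ) : (linF x0 x1 l).bk = x0.bk + l * (x1.bk - x0.bk) := by
  simp only [linF, St.bk]; ring

lemma linF_fam (x0 x1 : St S) (h : x0.i = x1.i) (h0 : x0.Ok) (h1 : x1.Ok) :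
    Fam x0.i 0 1 (linF x0 x1) := by
  refine ⟨fun l _ => rfl, fun l hl => ?_, ?_, ?_⟩
  · obtain ⟨⟨a0, b0⟩, c0⟩ := h0
    obtain ⟨⟨a1, b1⟩, c1⟩ := h1
    rw [← h] at a1 b1
    obtain ⟨hl0, hl1⟩ := hl
    rw [abs_lt] at c0 c1
    refine ⟨⟨?_, ?_⟩, ?_⟩
    · show S.a x0.i < x0.u + l * (x1.u - x0.u)
      rcases eq_or_lt_of_le hl0 with h' | h'
      · subst h'; simpa using a0
      · nlinarith
    · show x0.u + l * (x1.u - x0.u) < S.b x0.i
      rcases eq_or_lt_of_le hl0 with h' | h'
      · subst h'; simpa using b0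
      · nlinarith
    · show |x0.φ + l * (x1.φ - x0.φ)| < Real.pi / 2
      rw [abs_lt]
      rcases eq_or_lt_of_le hl0 with h' | h'
      · subst h'; simpa using c0
      · constructor <;> nlinarith
  · show ContinuousOn (fun l => x0.u + l * (x1.u - x0.u)) (Icc 0 1)
    fun_prop
  · show ContinuousOn (fun l => x0.φ + l * (x1.φ - x0.φ)) (Icc 0 1)
    fun_prop

lemma lin_mono (a d : ℝ) (h : 0 ≤ d) (s : Set ℝ) : MonotoneOn (fun l : ℝ => a + l * d) s := by
  intro l _ l' _ hll
  show a + l * d ≤ a + l' * d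
  nlinarith

lemma lin_anti (a d : ℝ) (h : d ≤ 0) (s : Set ℝ) : AntitoneOn (fun l : ℝ => a + l * d) s := by
  intro l _ l' _ hll
  show a + l' * d ≤ a + l * d
  nlinarith

lemma lin_mono_or (a d : ℝ) (s : Set ℝ) :
    MonotoneOn (fun l : ℝ => a + l * d) s ∨ AntitoneOn (fun l : ℝ => a + l * d) s := by
  rcases le_total 0 d with h | h
  · exact Or.inl (lin_mono a d h s)
  · exact Or.inr (lin_anti a d h s)

lemma linF_mono (x0 x1 : St S) (h : 0 ≤ (x1.u - x0.u) * (x1.th - x0.th))
    (h' : x1.u ≠ x0.u ∨ x1.th ≠ x0.th) :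
    IncF 0 1 (linF x0 x1) ∨ DecF 0 1 (linF x0 x1) := by
  have hu : (fun l => (linF x0 x1 l).u) = fun l => x0.u + l * (x1.u - x0.u) := rfl
  have ht : (fun l => (linF x0 x1 l).th) = fun l => x0.th + l * (x1.th - x0.th) := by
    funext l; exact linF_th x0 x1 l
  rcases mul_nonneg_iff.mp h with ⟨h1, h2⟩ | ⟨h1, h2⟩
  · left
    refine ⟨by rw [hu]; exact lin_mono _ _ h1 _, by rw [ht]; exact lin_mono _ _ h2 _, ?_⟩
    intro l _ l' _ hll
    rcases h' with h' | h'
    · left
      have : 0 < x1.u - x0.u := lt_of_le_of_ne h1 (fun hh => h' (by linarith))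
      show x0.u + l * (x1.u - x0.u) < x0.u + l' * (x1.u - x0.u)
      nlinarith
    · right
      have : 0 < x1.th - x0.th := lt_of_le_of_ne h2 (fun hh => h' (by linarith))
      rw [linF_th, linF_th]
      nlinarith
  · right
    refine ⟨by rw [hu]; exact lin_anti _ _ h1 _, by rw [ht]; exact lin_anti _ _ h2 _, ?_⟩
    intro l _ l' _ hll
    rcases h' with h' | h'
    · left
      have : x1.u - x0.u < 0 := lt_of_le_of_ne h1 (fun hh => h' (by linarith))
      show x0.u + l' * (x1.u - x0.u) < x0.u + l * (x1.u - x0.u)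
      nlinarith
    · right
      have : x1.th - x0.th < 0 := lt_of_le_of_ne h2 (fun hh => h' (by linarith))
      rw [linF_th, linF_th]
      nlinarith

/-- Forward continuation, including the trivial case of no flight. -/
lemma half (hI : G_INTF S) (n : ℕ) (w : ℕ → S.ι) (x : ℝ → St S) (z0 z1 : ℕ → St S)
    (hF : Fam (w 0) 0 1 x) (hm : 0 < n → IncF 0 1 x ∨ DecF 0 1 x) (h0 : Cyl n w z0)
    (h1 : Cyl n w z1) (e0 : z0 0 = x 0) (e1 : z1 0 = x 1) :
    ∃ Z : ℝ → ℕ → St S, (∀ l ∈ Icc (0 : ℝ) 1, Cyl n w (Z l) ∧ Z l 0 = x l) ∧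
      (∀ k ≤ n, Z 0 k = z0 k ∧ Z 1 k = z1 k) ∧
      ∀ k ≤ n, Fam (w k) 0 1 (fun l => Z l k) ∧ (0 < k →
        (StrictMonoOn (fun l => (Z l k).u) (Icc 0 1) ∧
          StrictMonoOn (fun l => (Z l k).th) (Icc 0 1)) ∨
        (StrictAntiOn (fun l => (Z l k).u) (Icc 0 1) ∧
          StrictAntiOn (fun l => (Z l k).th) (Icc 0 1))) := by
  rcases Nat.eq_zero_or_pos n with hn | hn
  · subst hn
    refine ⟨fun l _ => x l, fun l hl => ⟨⟨⟨fun k _ => hF.ok l hl, fun k hk => ?_⟩,
      fun k hk => ?_⟩, rfl⟩, fun k hk => ?_, fun k hk => ?_⟩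
    · omega
    · have : k = 0 := by omega
      subst this; exact hF.arc l hl
    · have : k = 0 := by omega
      subst this; exact ⟨e0.symm, e1.symm⟩
    · have : k = 0 := by omega
      subst this; exact ⟨hF, fun h => by omega⟩
  · exact hI n w 0 1 x z0 z1 one_pos hF (hm hn) h0 h1 e0 e1

lemma sm_or {f : ℝ → ℝ} {s : Set ℝ} (h : StrictMonoOn f s ∨ StrictAntiOn f s) :
    MonotoneOn f s ∨ AntitoneOn f s := h.imp StrictMonoOn.monotoneOn StrictAntiOn.antitoneOn

lemma sub_or {f : ℝ → ℝ} {s : Set ℝ} (c : ℝ) (h : MonotoneOn f s ∨ AntitoneOn f s) :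
    MonotoneOn (fun l => f l - c) s ∨ AntitoneOn (fun l => f l - c) s := by
  rcases h with h | h
  · left; intro a ha b hb hab; have := h ha hb hab; show f a - c ≤ f b - c; linarith
  · right; intro a ha b hb hab; have := h ha hb hab; show f b - c ≤ f a - c; linarith

lemma congr_or {f g : ℝ → ℝ} {s : Set ℝ} (hfg : ∀ l ∈ s, f l = g l)
    (h : MonotoneOn f s ∨ AntitoneOn f s) : MonotoneOn g s ∨ AntitoneOn g s := by
  rcases h with h | h
  · left; intro a ha b hb hab; rw [← hfg a ha, ← hfg b hb]; exact h ha hb hab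
  · right; intro a ha b hb hab; rw [← hfg a ha, ← hfg b hb]; exact h ha hb hab

lemma famRev {i : S.ι} {x : ℝ → St S} (h : Fam i 0 1 x) : Fam i 0 1 (fun l => (x l).rev) :=
  ⟨fun l hl => h.arc l hl, fun l hl => (St.rev_Ok _).mpr (h.ok l hl), h.cu, h.cφ.neg⟩

theorem thm (S : Sys) : G_FLB S → G_LIFT S → G_INTF S → G_EXT S := by
  intro hB hL hI n w z z' m hmn hn hz hz' hf hb
  have him : (z m).i = w m := hz.2 m hmn
  have him' : (z' m).i = w m := hz'.2 m hmn
  have hii : (z m).i = (z' m).i := him.trans him'.symm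
  set x : ℝ → St S := linF (z m) (z' m) with hx
  have hxF : Fam (w m) 0 1 x := him ▸ linF_fam (z m) (z' m) hii (hz.1.1 m hmn) (hz'.1.1 m hmn)
  have hx0 : x 0 = z m := linF_zero _ _
  have hx1 : x 1 = z' m := linF_one _ _ hii
  -- forward part
  obtain ⟨Zf, f1, f2, f3⟩ := half hI (n - m) (sh m w) x (fun k => z (m + k)) (fun k => z' (m + k))
    hxF (fun h => linF_mono _ _ (hf (by omega)).1 (hf (by omega)).2)
    (hz.shift (by omega)) (hz'.shift (by omega)) hx0.symm hx1.symm
  -- backward part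
  have hxr : (fun l => (x l).rev) = linF (z m).rev (z' m).rev := by
    funext l; exact linF_rev _ _ l
  obtain ⟨Zb, b1, b2, b3⟩ := half hI m (fun k => w (m - k)) (fun l => (x l).rev)
    (fun k => (z (m - k)).rev) (fun k => (z' (m - k)).rev) (famRev hxF)
    (fun h => by
      rw [hxr]
      refine linF_mono _ _ ?_ ?_
      · simpa using (hb h).1
      · simpa using (hb h).2)
    (hz.mono hmn).rev (hz'.mono hmn).rev (by show (z m).rev = (x 0).rev; rw [hx0])
    (by show (z' m).rev = (x 1).rev; rw [hx1])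
  set Z : ℝ → ℕ → St S := fun l k => if k < m then (Zb l (m - k)).rev else Zf l (k - m) with hZ
  have Zlt : ∀ l k, k < m → Z l k = (Zb l (m - k)).rev := fun l k h => if_pos h
  have Zge : ∀ l k, m ≤ k → Z l k = Zf l (k - m) := fun l k h => if_neg (by omega)
  have Zm : ∀ l ∈ Icc (0 : ℝ) 1, Z l m = x l := by
    intro l hl; rw [Zge l m le_rfl, Nat.sub_self]; exact (f1 l hl).2
  have hcyl : ∀ l ∈ Icc (0 : ℝ) 1, Cyl n w (Z l) := by
    intro l hl
    obtain ⟨⟨⟨fo, ff⟩, fi⟩, f0⟩ := f1 l hl
    obtain ⟨⟨⟨bo, bf⟩, bi⟩, b0⟩ := b1 l hl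
    refine ⟨⟨fun k hk => ?_, fun k hk => ?_⟩, fun k hk => ?_⟩
    · rcases lt_or_ge k m with h | h
      · rw [Zlt l k h]; exact (St.rev_Ok _).mpr (bo _ (by omega))
      · rw [Zge l k h]; exact fo _ (by omega)
    · rcases lt_or_ge k m with h | h
      · rcases lt_or_ge (k + 1) m with h' | h'
        · rw [Zlt l k h, Zlt l (k + 1) h']
          have h1 := (bf (m - (k + 1)) (by omega)).rev
          have h2 : m - (k + 1) + 1 = m - k := by omega
          rw [h2] at h1
          exact h1
        · have hk' : k + 1 = m := by omega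
          rw [Zlt l k h, hk', Zm l hl]
          have h1 := (bf 0 (by omega)).rev
          rw [b0, St.rev_rev] at h1
          have h2 : m - k = 0 + 1 := by omega
          rw [h2]
          exact h1
      · rw [Zge l k h, Zge l (k + 1) (by omega)]
        have h1 := ff (k - m) (by omega)
        have h2 : k + 1 - m = k - m + 1 := by omega
        rw [h2]; exact h1
    · rcases lt_or_ge k m with h | h
      · rw [Zlt l k h, St.rev_i, bi _ (by omega)]
        show w (m - (m - k)) = w k
        congr 1; omega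
      · rw [Zge l k h, fi _ (by omega)]
        show w (m + (k - m)) = w k
        congr 1; omega
  have hu : ∀ k ≤ n, MonotoneOn (fun l => (Z l k).u) (Icc 0 1) ∨
      AntitoneOn (fun l => (Z l k).u) (Icc 0 1) := by
    intro k hk
    rcases lt_trichotomy k m with h | h | h
    · have h1 := (b3 (m - k) (by omega)).2 (by omega)
      refine congr_or (f := fun l => (Zb l (m - k)).u) (fun l _ => ?_)
        (sm_or (h1.imp And.left And.left))
      show (Zb l (m - k)).u = (Z l k).u
      rw [Zlt l k h, St.rev_u]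
    · subst h
      refine congr_or (f := fun l => (z k).u + l * ((z' k).u - (z k).u)) (fun l hl => ?_)
        (lin_mono_or _ _ _)
      show _ = (Z l k).u
      rw [Zm l hl]; rfl
    · have h1 := (f3 (k - m) (by omega)).2 (by omega)
      refine congr_or (f := fun l => (Zf l (k - m)).u) (fun l _ => ?_)
        (sm_or (h1.imp And.left And.left))
      show (Zf l (k - m)).u = (Z l k).u
      rw [Zge l k h.le]
  have hbk : ∀ k, k < m → MonotoneOn (fun l => (Z l (k + 1)).bk) (Icc 0 1) ∨
      AntitoneOn (fun l => (Z l (k + 1)).bk) (Icc 0 1) := by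
    intro k hk
    rcases lt_or_ge (k + 1) m with h | h
    · have h1 := (b3 (m - (k + 1)) (by omega)).2 (by omega)
      refine congr_or (f := fun l => (Zb l (m - (k + 1))).th) (fun l _ => ?_)
        (sm_or (h1.imp And.right And.right))
      show (Zb l (m - (k + 1))).th = (Z l (k + 1)).bk
      rw [Zlt l (k + 1) h, St.rev_bk]
    · have hk' : k + 1 = m := by omega
      refine congr_or (f := fun l => (z m).bk + l * ((z' m).bk - (z m).bk)) (fun l hl => ?_)
        (lin_mono_or _ _ _)
      show _ = (Z l (k + 1)).bk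
      rw [hk', Zm l hl]; exact (linF_bk _ _ l).symm
  refine ⟨Z, hcyl, fun k hk => ?_, fun k hk => ⟨?_, hu k hk, fun hkn => ?_⟩⟩
  · rcases lt_or_ge k m with h | h
    · rw [Zlt 0 k h, Zlt 1 k h, (b2 (m - k) (by omega)).1, (b2 (m - k) (by omega)).2]
      have : m - (m - k) = k := by omega
      simp only [this, St.rev_rev]
      exact ⟨trivial, trivial⟩
    · rw [Zge 0 k h, Zge 1 k h, (f2 (k - m) (by omega)).1, (f2 (k - m) (by omega)).2]
      have : m + (k - m) = k := by omega
      simp only [this]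
      exact ⟨trivial, trivial⟩
  · rcases lt_or_ge k m with h | h
    · have h1 := famRev (b3 (m - k) (by omega)).1
      have h2 : m - (m - k) = k := by omega
      have h3 : (fun l => Z l k) = fun l => (Zb l (m - k)).rev := by funext l; exact Zlt l k h
      rw [h3]
      simpa only [h2] using h1
    · have h1 := (f3 (k - m) (by omega)).1
      have h3 : (fun l => Z l k) = fun l => Zf l (k - m) := by funext l; exact Zge l k h
      have h2 : sh m w (k - m) = w k := by show w (m + (k - m)) = w k; congr 1; omega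
      rw [h3, ← h2]; exact h1
  · rcases lt_trichotomy k m with h | h | h
    · have hne : w k ≠ w (k + 1) := by
        have := hB.1 _ _ (hz.1.2 k hkn)
        rwa [hz.2 k hk, hz.2 (k + 1) (by omega)] at this
      obtain ⟨η, c, kk, -, -, -, -, -, hLL⟩ := hL (w k) (w (k + 1)) hne
      refine congr_or (f := fun l => (Z l (k + 1)).bk - kk) (fun l hl => ?_)
        (sub_or kk (hbk k h))
      have h1 := hcyl l hl
      have h2 := (hLL _ _ (h1.1.2 k hkn) (h1.2 k hk) (h1.2 (k + 1) (by omega))).2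
      show (Z l (k + 1)).bk - kk = (Z l k).th
      linarith
    · subst h
      refine congr_or (f := fun l => (z k).th + l * ((z' k).th - (z k).th)) (fun l hl => ?_)
        (lin_mono_or _ _ _)
      show _ = (Z l k).th
      rw [Zm l hl]; exact (linF_th _ _ l).symm
    · have h1 := (f3 (k - m) (by omega)).2 (by omega)
      refine congr_or (f := fun l => (Zf l (k - m)).th) (fun l _ => ?_)
        (sm_or (h1.imp And.right And.right))
      show (Zf l (k - m)).th = (Z l k).th
      rw [Zge l k h.le]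

end Pool.Agent.Helper42.DB.PkEXT
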